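import Pool.Agent.H96.RE.Defs
import Pool.Agent.H96.RX.Prod

/-!
ROW PolRM (about 100 lines).  PROOF.
`mono_mem`: definition.  `mono_mul`: `mono T * mono T' = mono (T ∪ T')` (in `ZMod 2`, `a * a = a`: `decide`; split `∏` over `T ∪ T'`).
`Pol_eq_RM`: `≥`: induction on `D`.  `RM 0` = constants (`mem_RM_zero`) = multiples of `mono ∅`.  `RM (D+1) = RM D * Aff` (`pow_succ`;
`Submodule.mul_le`): an affine function `φ x + c = ∑ i, φ (e_i) x i + c` is a combination of `mono {i}` and `mono ∅`; a product of `mono T`, `T.card ≤ D`,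
with `mono {i}` is `mono (insert i T)`: use `Submodule.span_mul_span` or `Submodule.span_induction`.
`≤`: `mono T ∈ RM (T.card)` by induction on `T` (`mono (insert i T) = mono T * (x ↦ x i)`, `x ↦ x i ∈ Aff`), and `RM` is increasing (`RM_succ_le`).
`Pol_mul`: for `RM`: `pow_add`, `Submodule.mul_mem_mul`.
`Pol_mono`: `Submodule.span_mono`.
`const_mem`: constants are in `Pol n D`.
`mulX_mem`: `Pol_mul` with `mono {i} ∈ Pol n 1`.
-/

set_option autoImplicit false
open scoped Classical

namespace H96RE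

theorem mono_mem {n D : ℕ} {T : Finset (Fin n)} (h : T.card ≤ D) : mono T ∈ Pol n D :=
  Submodule.subset_span ⟨T, h, rfl⟩

private theorem PolRM_sq (t : ZMod 2) : t * t = t := by
  revert t
  decide

theorem mono_mul {n : ℕ} (T T' : Finset (Fin n)) : mono T * mono T' = mono (T ∪ T') := by
  funext x
  rw [Pi.mul_apply]
  unfold mono
  rw [← Finset.prod_union_inter]
  have h1 : T ∩ T' ⊆ T ∪ T' := Finset.inter_subset_union
  rw [← Finset.prod_sdiff h1, mul_assoc, PolRM_sq]

private theorem PolRM_mul {n a b : ℕ} {g h : (Fin n → ZMod 2) → ZMod 2} (hg : g ∈ Pol n a)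
    (hh : h ∈ Pol n b) : g * h ∈ Pol n (a + b) := by
  have h1 : Pol n a * Pol n b ≤ Pol n (a + b) := by
    unfold Pol
    rw [Submodule.span_mul_span]
    refine Submodule.span_le.2 ?_
    rintro _ ⟨_, ⟨T, hT, rfl⟩, _, ⟨T', hT', rfl⟩, rfl⟩
    have h2 : mono T * mono T' = mono (T ∪ T') := mono_mul T T'
    have h3 : (T ∪ T').card ≤ a + b :=
      (Finset.card_union_le T T').trans (Nat.add_le_add hT hT')
    exact Submodule.subset_span ⟨T ∪ T', h3, h2.symm⟩
  exact h1 (Submodule.mul_mem_mul hg hh)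

private theorem PolRM_const {n D : ℕ} (c : ZMod 2) :
    (fun _ => c : (Fin n → ZMod 2) → ZMod 2) ∈ Pol n D := by
  have h1 : (fun _ => c : (Fin n → ZMod 2) → ZMod 2) = c • mono (∅ : Finset (Fin n)) := by
    funext x
    rw [Pi.smul_apply, smul_eq_mul]
    unfold mono
    rw [Finset.prod_empty, mul_one]
  rw [h1]
  exact (Pol n D).smul_mem c (mono_mem (by simp))

private theorem PolRM_aff {n : ℕ} {l : (Fin n → ZMod 2) → ZMod 2}
    (hl : l ∈ H96RX.Aff (Fin n → ZMod 2)) : l ∈ Pol n 1 := by
  obtain ⟨φ, c, h⟩ := hl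
  have h1 : l = (∑ i, φ (Pi.single i 1) • mono ({i} : Finset (Fin n))) + fun _ => c := by
    funext x
    rw [h, Pi.add_apply, Finset.sum_apply]
    congr 1
    have h2 : x = ∑ i, x i • (Pi.single i (1 : ZMod 2) : Fin n → ZMod 2) := by
      funext j
      rw [Finset.sum_apply, Finset.sum_eq_single j]
      · rw [Pi.smul_apply, Pi.single_eq_same, smul_eq_mul, mul_one]
      · intro b _ hb
        rw [Pi.smul_apply, Pi.single_eq_of_ne (Ne.symm hb), smul_zero]
      · intro hj
        exact absurd (Finset.mem_univ j) hj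
    conv_lhs => rw [h2]
    rw [map_sum]
    refine Finset.sum_congr rfl fun i _ => ?_
    rw [map_smul, smul_eq_mul, Pi.smul_apply, smul_eq_mul]
    unfold mono
    rw [Finset.prod_singleton, mul_comm]
  rw [h1]
  refine (Pol n 1).add_mem (Submodule.sum_mem _ fun i _ => ?_) (PolRM_const c)
  exact (Pol n 1).smul_mem _ (mono_mem (by simp))

private theorem PolRM_coord {n : ℕ} (i : Fin n) :
    (fun x : Fin n → ZMod 2 => x i) ∈ H96RX.Aff (Fin n → ZMod 2) :=
  ⟨LinearMap.proj i, 0, fun x => by rw [LinearMap.proj_apply, add_zero]⟩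

private theorem PolRM_RM_mono {n a b : ℕ} (h : a ≤ b) :
    H96RX.RM (Fin n → ZMod 2) a ≤ H96RX.RM (Fin n → ZMod 2) b :=
  monotone_nat_of_le_succ (fun D => H96RX.RM_succ_le (V := Fin n → ZMod 2) D) h

private theorem PolRM_mono_RM {n : ℕ} (T : Finset (Fin n)) :
    mono T ∈ H96RX.RM (Fin n → ZMod 2) T.card := by
  induction T using Finset.induction_on with
  | empty =>
    rw [Finset.card_empty]
    refine (H96RX.mem_RM_zero _).2 ⟨1, fun x => ?_⟩
    unfold mono
    rw [Finset.prod_empty]
  | insert i T hi ih =>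
    rw [Finset.card_insert_of_notMem hi]
    have h1 : mono (insert i T) = mono T * fun x : Fin n → ZMod 2 => x i := by
      funext x
      rw [Pi.mul_apply]
      unfold mono
      rw [Finset.prod_insert hi, mul_comm]
    rw [h1]
    unfold H96RX.RM at ih ⊢
    rw [pow_succ]
    exact Submodule.mul_mem_mul ih (PolRM_coord i)

private theorem PolRM_RM_le (n D : ℕ) : H96RX.RM (Fin n → ZMod 2) D ≤ Pol n D := by
  induction D with
  | zero =>
    intro f hf
    obtain ⟨c, hc⟩ := (H96RX.mem_RM_zero f).1 hf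
    have h1 : f = fun _ => c := funext hc
    rw [h1]
    exact PolRM_const c
  | succ D ih =>
    unfold H96RX.RM at ih ⊢
    rw [pow_succ, Submodule.mul_le]
    intro m hm l hl
    exact PolRM_mul (ih hm) (PolRM_aff hl)

theorem Pol_eq_RM (n D : ℕ) : Pol n D = H96RX.RM (Fin n → ZMod 2) D := by
  refine le_antisymm ?_ (PolRM_RM_le n D)
  unfold Pol
  refine Submodule.span_le.2 ?_
  rintro _ ⟨T, hT, rfl⟩
  exact PolRM_RM_mono hT (PolRM_mono_RM T)

theorem Pol_mul {n a b : ℕ} {g h : (Fin n → ZMod 2) → ZMod 2} (hg : g ∈ Pol n a) (hh : h ∈ Pol n b) :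
    g * h ∈ Pol n (a + b) := PolRM_mul hg hh

theorem Pol_mono {n a b : ℕ} (h : a ≤ b) : Pol n a ≤ Pol n b := by
  unfold Pol
  refine Submodule.span_mono (Set.image_mono fun T hT => ?_)
  exact le_trans (Set.mem_setOf.1 hT) h

theorem const_mem {n D : ℕ} (c : ZMod 2) : (fun _ => c : (Fin n → ZMod 2) → ZMod 2) ∈ Pol n D :=
  PolRM_const c

theorem mulX_mem {n D : ℕ} (i : Fin n) {g : (Fin n → ZMod 2) → ZMod 2} (h : g ∈ Pol n D) : mulX i g ∈ Pol n (D + 1) := by
  have h1 : mulX i g = g * mono ({i} : Finset (Fin n)) := by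
    funext x
    rw [Pi.mul_apply]
    unfold mono mulX
    rw [Finset.prod_singleton, mul_comm]
  rw [h1]
  exact PolRM_mul h (mono_mem (by simp))

/-- the monomials are linearly independent -/
theorem mono_indep (n : ℕ) : LinearIndependent (ZMod 2) (fun T : Finset (Fin n) => mono T) := by
  rw [Fintype.linearIndependent_iff]
  intro g hg T
  induction T using Finset.strongInduction with
  | H T ih =>
    have h1 := congrFun hg (fun i => if i ∈ T then 1 else 0)
    rw [Finset.sum_apply, Finset.sum_eq_single T] at h1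
    · rw [Pi.smul_apply, smul_eq_mul] at h1
      unfold mono at h1
      rw [Finset.prod_boole, if_pos (fun i hi => hi), mul_one] at h1
      exact h1
    · intro T' _ hT'
      rw [Pi.smul_apply, smul_eq_mul]
      unfold mono
      rw [Finset.prod_boole]
      by_cases hsub : ∀ i ∈ T', i ∈ T
      · rw [ih T' (Finset.ssubset_iff_subset_ne.2 ⟨hsub, hT'⟩), zero_mul]
      · rw [if_neg hsub, mul_zero]
    · intro hT
      exact absurd (Finset.mem_univ T) hT

end H96RE
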