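import Pool.Agent.H96.RE.PolRM

/-!
ROW PCmul (closure properties of `PC`; about 80 lines).  PROOF.
`ind_mem_PC`, `mulX_mem_PC`: `Submodule.mem_sInf`.
`mul_mem_PC`: `g ∈ PC`, `g ∈ Pol n a`, `h ∈ Pol n b`, `a + b ≤ E`.  `Submodule.span_induction` on `h`: it is enough to treat `h = mono T`, `T.card ≤ b` (sums and scalars are
clear).  Induction on `T` (`Finset.induction_on`, with the claim `g * mono T ∈ PC` and `g * mono T ∈ Pol n (a + T.card)`): `g * mono (insert i T) = mulX i (g * mono T)`,
`a + T.card + 1 ≤ E`.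
`ind_mem_Pol`: `indic (falseSet S σ) = ∏_(t ∈ S) (x t + σ t + 1)` (both are 1 iff all `x t = σ t`), a product of `S.card` functions of degree `≤ 1` (`Pol_mul`, induction on `S`).
-/

set_option autoImplicit false
open scoped Classical

namespace H96RE

variable {n : ℕ} {ι : Type} {S : ι → Finset (Fin n)} {σ : ι → Fin n → ZMod 2} {E : ℕ}

theorem ind_mem_PC (j : ι) : indic (falseSet (S j) (σ j)) ∈ PC S σ E :=
  Submodule.mem_sInf.mpr (fun _ hK => hK.1 j)

theorem mulX_mem_PC {g : (Fin n → ZMod 2) → ZMod 2} {a : ℕ} (hg : g ∈ PC S σ E) (ha : g ∈ Pol n a) (h : a + 1 ≤ E)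
    (i : Fin n) : mulX i g ∈ PC S σ E :=
  Submodule.mem_sInf.mpr (fun K hK => hK.2 g (Submodule.mem_sInf.mp hg K hK) a h ha i)

private theorem PCmul_mono_insert {i : Fin n} {T : Finset (Fin n)} (hi : i ∉ T) (g : (Fin n → ZMod 2) → ZMod 2) :
    g * mono (insert i T) = mulX i (g * mono T) := by
  funext x
  simp only [Pi.mul_apply, mono, mulX, Finset.prod_insert hi]
  ring

private theorem PCmul_mono {g : (Fin n → ZMod 2) → ZMod 2} {a : ℕ} (hg : g ∈ PC S σ E) (ha : g ∈ Pol n a)
    (T : Finset (Fin n)) : a + T.card ≤ E → g * mono T ∈ PC S σ E := by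
  induction T using Finset.induction_on with
  | empty =>
    intro _
    have h1 : g * mono (∅ : Finset (Fin n)) = g := by
      funext x
      simp [mono]
    rw [h1]
    exact hg
  | insert i T hi ih =>
    intro hE
    rw [Finset.card_insert_of_notMem hi] at hE
    rw [PCmul_mono_insert hi]
    exact mulX_mem_PC (ih (by omega)) (Pol_mul ha (mono_mem (le_refl T.card))) (by omega) i

theorem mul_mem_PC {g h : (Fin n → ZMod 2) → ZMod 2} {a b : ℕ} (hg : g ∈ PC S σ E) (ha : g ∈ Pol n a)
    (hb : h ∈ Pol n b) (hab : a + b ≤ E) : g * h ∈ PC S σ E := by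
  unfold Pol at hb
  induction hb using Submodule.span_induction with
  | mem h hh =>
    obtain ⟨T, hT, rfl⟩ := hh
    exact PCmul_mono hg ha T (by have hT' : T.card ≤ b := hT; omega)
  | zero => rw [mul_zero]; exact Submodule.zero_mem _
  | add u v _ _ hu hv => rw [mul_add]; exact Submodule.add_mem _ hu hv
  | smul c u _ hu => rw [mul_smul_comm]; exact Submodule.smul_mem _ c hu

private theorem PCmul_lin (t : Fin n) (c : ZMod 2) : (fun x : Fin n → ZMod 2 => x t + c + 1) ∈ Pol n 1 := by
  have h1 : (fun x : Fin n → ZMod 2 => x t + c + 1) = mono {t} + (fun _ => c + 1) := by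
    funext x
    simp only [Pi.add_apply, mono, Finset.prod_singleton]
    ring
  rw [h1]
  exact Submodule.add_mem _ (mono_mem (by simp)) (const_mem (c + 1))

private theorem PCmul_ind_insert {i : Fin n} {T : Finset (Fin n)} (τ : Fin n → ZMod 2) :
    indic (falseSet (insert i T) τ) = (fun x : Fin n → ZMod 2 => x i + τ i + 1) * indic (falseSet T τ) := by
  have hz : ∀ a b : ZMod 2, a ≠ b → a + b + 1 = 0 := by decide
  have ho : ∀ b : ZMod 2, b + b + 1 = 1 := by decide
  funext x
  simp only [Pi.mul_apply, indic, falseSet, Set.mem_setOf_eq, Finset.forall_mem_insert]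
  by_cases h1 : x i = τ i
  · rw [h1, ho, one_mul]
    simp
  · rw [hz _ _ h1, zero_mul, if_neg (fun h => h1 h.1)]

theorem ind_mem_Pol (T : Finset (Fin n)) (τ : Fin n → ZMod 2) : indic (falseSet T τ) ∈ Pol n T.card := by
  induction T using Finset.induction_on with
  | empty =>
    have h1 : indic (falseSet (∅ : Finset (Fin n)) τ) = (fun _ => 1) := by
      funext x
      simp [indic, falseSet]
    rw [h1]
    exact const_mem 1
  | insert i T hi ih =>
    rw [Finset.card_insert_of_notMem hi, PCmul_ind_insert, add_comm]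
    exact Pol_mul (PCmul_lin i (τ i)) ih

end H96RE
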