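import Pool.Agent.H96.RE.Half
import Pool.Agent.H96.RE.PolRM

/-!
ROW Approx (Razborov's approximation with a rank-measured error; about 80 lines).  PROOF.  `V = Fin n → ZMod 2`, `RM V D = Pol n D` (`Pol_eq_RM`).
`P` is a finite set of functions (the function space is finite); let `g : Fin l → V → F` enumerate it.  `Z = {x | ∀ p ∈ P, p x = 0}`.
Induction on `w`: there is `a ∈ Pol n (e * w)` with values... `a = ∏ (1 + p_t)`, `a x = 1` for `x ∈ Z`, and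
`X_w = {x | x ∉ Z ∧ a x ≠ 0}` has `Om X_w ≤ (1 - q^e/2)^w (1+q)^n`.  `w = 0`: `a = 1`, `X_0 ⊆ univ`, `Om_mono`, `Om_univ` (`finrank = n`).
Step: apply `Om_half` to `X_w` (every `x ∉ Z` has some `g i x = 1`, since values are 0 or 1): `p = ∑_(i∈R) g i ∈ Pol n e`, `Om (X_w ∩ {p = 1}) ≥ Om X_w / 2`;
`a' = a * (1 + p)`: `a' x = 1` on `Z` (`p x = 0`); `X_(w+1) = X_w ∩ {p = 0}` (`a' x ≠ 0` iff `a x ≠ 0` and `p x = 0`); `Om_split`:
`Om X_(w+1) ≤ Om X_w - q^e Om (X_w ∩ {p=1}) ≤ (1 - q^e/2) Om X_w`.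
-/

set_option autoImplicit false
open scoped Classical

namespace H96RE

theorem approx {n e : ℕ} (w : ℕ) {q : ℝ} (h0 : 0 ≤ q) (h1 : q < 1) (P : Set ((Fin n → ZMod 2) → ZMod 2))
    (hP : ∀ p ∈ P, p ∈ Pol n e) :
    ∃ a ∈ Pol n (e * w), (∀ x, (∀ p ∈ P, p x = 0) → a x = 1) ∧
      H96RX.Om (Fin n → ZMod 2) q {x | ¬ (∀ p ∈ P, p x = 0) ∧ a x ≠ 0} ≤ (1 - q ^ e / 2) ^ w * (1 + q) ^ n := by
  obtain ⟨l, g, hg⟩ : ∃ (l : ℕ) (g : Fin l → (Fin n → ZMod 2) → ZMod 2), ∀ p, p ∈ P ↔ ∃ i, g i = p := by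
    obtain ⟨l, ⟨e⟩⟩ := Finite.exists_equiv_fin P
    refine ⟨l, fun i => (e.symm i : (Fin n → ZMod 2) → ZMod 2), fun p => ⟨fun hp => ⟨e ⟨p, hp⟩, ?_⟩, ?_⟩⟩
    · change ((e.symm (e ⟨p, hp⟩) : P) : (Fin n → ZMod 2) → ZMod 2) = p
      rw [Equiv.symm_apply_apply]
    · rintro ⟨i, rfl⟩
      exact (e.symm i).2
  have h01 : ∀ t : ZMod 2, t = 0 ∨ t = 1 := by decide
  induction w with
  | zero =>
    refine ⟨fun _ => 1, const_mem 1, fun x _ => rfl, ?_⟩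
    have h2 := H96RX.Om_univ (V := Fin n → ZMod 2) h0 h1
    rw [Module.finrank_fin_fun] at h2
    rw [pow_zero, one_mul, ← h2]
    exact H96RX.Om_mono h0 h1 (Set.subset_univ _)
  | succ w ih =>
    obtain ⟨a, ha, ha1, hOm⟩ := ih
    obtain ⟨X, hXd⟩ : ∃ X : Set (Fin n → ZMod 2), X = {x | ¬ (∀ p ∈ P, p x = 0) ∧ a x ≠ 0} := ⟨_, rfl⟩
    rw [← hXd] at hOm
    have hX : ∀ x ∈ X, ∃ i, g i x = 1 := by
      intro x hx
      rw [hXd] at hx
      obtain ⟨hx1, -⟩ := hx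
      push Not at hx1
      obtain ⟨p, hp, hpx⟩ := hx1
      obtain ⟨i, rfl⟩ := (hg p).1 hp
      exact ⟨i, (h01 _).resolve_left hpx⟩
    obtain ⟨R, hR⟩ := H96RX.Om_half h0 h1 g X hX
    obtain ⟨p, hpd⟩ : ∃ p : (Fin n → ZMod 2) → ZMod 2, p = ∑ i ∈ R, g i := ⟨_, rfl⟩
    have hpx : ∀ x, p x = ∑ i ∈ R, g i x := by
      intro x
      rw [hpd, Finset.sum_apply]
    have hpP : p ∈ Pol n e := by
      rw [hpd]
      exact Submodule.sum_mem _ fun i _ => hP _ ((hg _).2 ⟨i, rfl⟩)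
    have hpR : p ∈ H96RX.RM (Fin n → ZMod 2) e := by
      rw [← Pol_eq_RM]
      exact hpP
    have hset : (X ∩ {x | (∑ i ∈ R, g i x) = 1}) = X ∩ {x | p x = 1} := by
      ext x
      simp only [Set.mem_inter_iff, Set.mem_ofPred_eq, hpx]
    rw [hset] at hR
    have hsp := H96RX.Om_split h0 h1 hpR X
    obtain ⟨c1, hc1, hc1x⟩ : ∃ c1 : (Fin n → ZMod 2) → ZMod 2, c1 ∈ Pol n e ∧ ∀ x, c1 x = 1 :=
      ⟨fun _ => 1, const_mem 1, fun _ => rfl⟩
    obtain ⟨a', ha'⟩ : ∃ a' : (Fin n → ZMod 2) → ZMod 2, a' = a * (c1 + p) := ⟨_, rfl⟩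
    have ha'x : ∀ x, a' x = a x * (1 + p x) := by
      intro x
      rw [ha', Pi.mul_apply, Pi.add_apply, hc1x]
    refine ⟨a', ?_, ?_, ?_⟩
    · rw [Nat.mul_succ, ha']
      exact Pol_mul ha (Submodule.add_mem _ hc1 hpP)
    · intro x hx
      have h3 : p x = 0 := by
        rw [hpx]
        exact Finset.sum_eq_zero fun i _ => hx _ ((hg _).2 ⟨i, rfl⟩)
      rw [ha'x, ha1 x hx, h3]
      ring
    · have hsub : {x | ¬ (∀ p ∈ P, p x = 0) ∧ a' x ≠ 0} ⊆ X ∩ {x | p x = 0} := by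
        rintro x ⟨hx1, hx2⟩
        rw [ha'x] at hx2
        have hx3 : a x ≠ 0 := left_ne_zero_of_mul hx2
        have hx4 : (1 : ZMod 2) + p x ≠ 0 := right_ne_zero_of_mul hx2
        refine ⟨?_, ?_⟩
        · rw [hXd]
          exact ⟨hx1, hx3⟩
        · rcases h01 (p x) with h | h
          · exact h
          · exfalso
            apply hx4
            rw [h]
            decide
      have h3 := H96RX.Om_mono h0 h1 hsub
      have hq0 : 0 ≤ q ^ e := pow_nonneg h0 e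
      have hq1 : q ^ e ≤ 1 := pow_le_one₀ h0 h1.le
      have h4 : q ^ e * (H96RX.Om (Fin n → ZMod 2) q X / 2) ≤
          q ^ e * H96RX.Om (Fin n → ZMod 2) q (X ∩ {x | p x = 1}) :=
        mul_le_mul_of_nonneg_left hR hq0
      have h5 : (1 - q ^ e / 2) * H96RX.Om (Fin n → ZMod 2) q X ≤
          (1 - q ^ e / 2) * ((1 - q ^ e / 2) ^ w * (1 + q) ^ n) :=
        mul_le_mul_of_nonneg_left hOm (by linarith)
      have h6 : (1 - q ^ e / 2) ^ (w + 1) * (1 + q) ^ n =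
          (1 - q ^ e / 2) * ((1 - q ^ e / 2) ^ w * (1 + q) ^ n) := by
        rw [pow_succ]
        ring
      rw [h6]
      refine h3.trans (le_trans ?_ h5)
      linarith

end H96RE
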