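import Pool.Agent.H96.RE.Split

/-!
ROW Half (a random combination covers half; about 110 lines).  PROOF.
`rk_basis`: for `X ⊆ V` and `D` there is a finset `B ⊆ X` with `B.card = rk V D X` and `rk V D Y ≥ (B ∩ Y).card` for all `Y`
(more precisely for `Y` a set: `rk V D Y ≥ (B.filter (· ∈ Y)).card`).  Let `ev x : Module.Dual F (RM V D)`, `ev x g = g x`.  For every set `Y`:
`rk V D Y = finrank (span (ev '' Y))`: `RM V D ⊓ van Y` is the common kernel (`Submodule.dualCoannihilator`) of that span:
`finrank (dualCoannihilator Φ) + finrank Φ = finrank (RM V D)` (`Subspace.finrank_add_finrank_dualCoannihilator_eq`).  Choose `B ⊆ X` such that `ev`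
on `B` is a basis of the span (`exists_linearIndependent` / `LinearIndepOn` extension); for every `Y` the vectors `ev x`, `x ∈ B ∩ Y` are independent in the span of
`ev '' Y`.
`Om_half`: for `R : Finset (Fin l)` put `p_R = ∑_(i ∈ R) g i`.  Average over the `2^l` sets `R`: for each `D`, with `B` from `rk_basis`,
`∑_R rk V D (X ∩ {p_R = 1}) ≥ ∑_R ∑_(x ∈ B) [p_R x = 1] = ∑_(x ∈ B) #{R | p_R x = 1} = B.card * 2^(l-1)` because some `g i x = 1` and toggling `i` in `R` changes
`p_R x`.  So `∑_R Om (X ∩ {p_R = 1}) ≥ 2^l * Om X / 2` (sum the series: `Summable.tsum_finsetSum`), and some `R` has `Om (X ∩ {p_R = 1}) ≥ Om X / 2`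
(`Finset.exists_le_of_sum_le`).
-/

set_option autoImplicit false
open scoped Classical

namespace H96RX

variable {V : Type} [AddCommGroup V] [Module (ZMod 2) V] [Finite V] {q : ℝ}

omit [Finite V] in
/-- evaluation -/
private noncomputable def Half_ev (D : ℕ) (x : V) : Module.Dual (ZMod 2) ↥(RM V D) :=
  (LinearMap.proj x).comp (RM V D).subtype

omit [Finite V] in
private theorem Half_ev_apply (D : ℕ) (x : V) (g : ↥(RM V D)) : Half_ev D x g = g.1 x := rfl

private theorem Half_rk (D : ℕ) (Y : Set V) :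
    rk V D Y = Module.finrank (ZMod 2) ↥(Submodule.span (ZMod 2) (Half_ev (V := V) D '' Y)) := by
  have h1 := rk_add (V := V) D Y
  have h2 := Subspace.finrank_add_finrank_dualCoannihilator_eq
    (Submodule.span (ZMod 2) (Half_ev (V := V) D '' Y))
  have h3 : (Submodule.span (ZMod 2) (Half_ev (V := V) D '' Y)).dualCoannihilator =
      (van Y).comap (RM V D).subtype := by
    ext g
    rw [Submodule.mem_dualCoannihilator, Submodule.mem_comap]
    constructor
    · intro h y hy
      exact h _ (Submodule.subset_span ⟨y, hy, rfl⟩)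
    · intro h φ hφ
      induction hφ using Submodule.span_induction with
      | mem φ hm =>
        obtain ⟨y, hy, rfl⟩ := hm
        exact h y hy
      | zero => rfl
      | add φ ψ _ _ h1 h2 => rw [LinearMap.add_apply, h1, h2, add_zero]
      | smul a φ _ h1 => rw [LinearMap.smul_apply, h1, smul_zero]
  have h4 : Module.finrank (ZMod 2) ↥((van Y).comap (RM V D).subtype) =
      Module.finrank (ZMod 2) ↥(RM V D ⊓ van Y) := by
    rw [← Submodule.map_comap_subtype]
    exact (Submodule.finrank_map_subtype_eq _ _).symm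
  rw [h3, h4] at h2
  omega

omit [Finite V] in
private theorem Half_card (D : ℕ) (B : Finset V)
    (h : LinearIndepOn (ZMod 2) (Half_ev (V := V) D) (B : Set V)) :
    Module.finrank (ZMod 2) ↥(Submodule.span (ZMod 2) (Half_ev (V := V) D '' (B : Set V))) = B.card := by
  have h1 := finrank_span_eq_card (R := ZMod 2) (b := fun x : (B : Set V) => Half_ev (V := V) D x) h
  rw [Set.image_eq_range, h1]
  simp

theorem rk_basis (D : ℕ) (X : Set V) :
    ∃ B : Finset V, (∀ x ∈ B, x ∈ X) ∧ B.card = rk V D X ∧ ∀ Y : Set V, (B.filter (fun x => x ∈ Y)).card ≤ rk V D Y := by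
  obtain ⟨b, hbX, -, hsp, hli⟩ := exists_linearIndepOn_extension
    (linearIndepOn_empty (ZMod 2) (Half_ev (V := V) D)) (Set.empty_subset X)
  obtain ⟨B, hB⟩ : ∃ B : Finset V, (B : Set V) = b := ⟨(Set.toFinite b).toFinset, by simp⟩
  subst hB
  refine ⟨B, fun x hx => hbX hx, ?_, fun Y => ?_⟩
  · rw [Half_rk, ← Half_card D B hli]
    have h : Submodule.span (ZMod 2) (Half_ev (V := V) D '' (B : Set V)) =
        Submodule.span (ZMod 2) (Half_ev (V := V) D '' X) :=
      le_antisymm (Submodule.span_mono (Set.image_mono hbX)) (Submodule.span_le.2 hsp)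
    rw [h]
  · have h1 : LinearIndepOn (ZMod 2) (Half_ev (V := V) D) ((B.filter (fun x => x ∈ Y) : Finset V) : Set V) :=
      hli.mono (by intro x hx; exact (Finset.mem_filter.1 hx).1)
    rw [← Half_card D _ h1, Half_rk]
    refine Submodule.finrank_mono (Submodule.span_mono (Set.image_mono ?_))
    intro x hx
    exact (Finset.mem_filter.1 hx).2

private theorem Half_toggle {l : ℕ} (a : Fin l → ZMod 2) (i : Fin l) (hi : a i = 1) :
    2 * (Finset.univ.filter (fun R : Finset (Fin l) => (∑ j ∈ R, a j) = 1)).card =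
      (Finset.univ : Finset (Finset (Fin l))).card := by
  have h01 : ∀ c : ZMod 2, (¬ c = 1) ↔ c + 1 = 1 := by decide
  have hs : ∀ R : Finset (Fin l), (∑ j ∈ symmDiff R {i}, a j) = (∑ j ∈ R, a j) + 1 := by
    intro R
    have hc : ∀ c : ZMod 2, c + 1 + 1 = c := by decide
    by_cases h : i ∈ R
    · have h1 : symmDiff R {i} = R.erase i := by
        ext x
        simp only [Finset.mem_symmDiff, Finset.mem_singleton, Finset.mem_erase]
        constructor
        · rintro (⟨h1, h2⟩ | ⟨h1, h2⟩)
          · exact ⟨h2, h1⟩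
          · subst h1
            exact absurd h h2
        · rintro ⟨h1, h2⟩
          exact Or.inl ⟨h2, h1⟩
      rw [h1, ← Finset.sum_erase_add R a h, hi, hc]
    · have h1 : symmDiff R {i} = insert i R := by
        ext x
        simp only [Finset.mem_symmDiff, Finset.mem_singleton, Finset.mem_insert]
        constructor
        · rintro (⟨h1, h2⟩ | ⟨h1, h2⟩)
          · exact Or.inr h1
          · exact Or.inl h1
        · rintro (h1 | h1)
          · subst h1
            exact Or.inr ⟨rfl, h⟩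
          · refine Or.inl ⟨h1, ?_⟩
            rintro rfl
            exact h h1
      rw [h1, Finset.sum_insert h, hi, add_comm]
  have h2 : (Finset.univ.filter (fun R : Finset (Fin l) => ¬ (∑ j ∈ R, a j) = 1)).card =
      (Finset.univ.filter (fun R : Finset (Fin l) => (∑ j ∈ R, a j) = 1)).card := by
    refine Finset.card_bij' (fun R _ => symmDiff R {i}) (fun R _ => symmDiff R {i}) ?_ ?_ ?_ ?_
    · intro R hR
      rw [Finset.mem_filter] at hR ⊢
      refine ⟨Finset.mem_univ _, ?_⟩
      rw [hs]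
      exact (h01 _).1 hR.2
    · intro R hR
      rw [Finset.mem_filter] at hR ⊢
      refine ⟨Finset.mem_univ _, ?_⟩
      rw [h01, hs]
      have hc : ∀ c : ZMod 2, c + 1 + 1 = c := by decide
      rw [hc]
      exact hR.2
    · intro R _
      exact symmDiff_symmDiff_cancel_right _ _
    · intro R _
      exact symmDiff_symmDiff_cancel_right _ _
  have h3 := Finset.card_filter_add_card_filter_not (s := (Finset.univ : Finset (Finset (Fin l))))
    (fun R : Finset (Fin l) => (∑ j ∈ R, a j) = 1)
  omega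

omit [AddCommGroup V] [Module (ZMod 2) V] [Finite V] in
private theorem Half_filter (B : Finset V) (p : V → Prop) (i1 i2 : DecidablePred p) :
    (@Finset.filter V p i1 B).card ≤ (@Finset.filter V p i2 B).card := by
  have h : i1 = i2 := Subsingleton.elim _ _
  subst h
  exact le_rfl

private theorem Half_sum {l : ℕ} (g : Fin l → V → ZMod 2) (X : Set V)
    (hX : ∀ x ∈ X, ∃ i, g i x = 1) (D : ℕ) :
    (Finset.univ : Finset (Finset (Fin l))).card * rk V D X ≤
      2 * ∑ R : Finset (Fin l), rk V D (X ∩ {x | (∑ i ∈ R, g i x) = 1}) := by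
  obtain ⟨B, hBX, hBc, hBY⟩ := rk_basis (V := V) D X
  have h1 : ∑ R : Finset (Fin l), (B.filter (fun x => x ∈ X ∩ {x | (∑ i ∈ R, g i x) = 1})).card ≤
      ∑ R : Finset (Fin l), rk V D (X ∩ {x | (∑ i ∈ R, g i x) = 1}) :=
    Finset.sum_le_sum fun R _ => (Half_filter B _ _ _).trans (hBY (X ∩ {x | (∑ i ∈ R, g i x) = 1}))
  have h2 : ∑ R : Finset (Fin l), (B.filter (fun x => x ∈ X ∩ {x | (∑ i ∈ R, g i x) = 1})).card =
      ∑ x ∈ B, (Finset.univ.filter (fun R : Finset (Fin l) => (∑ i ∈ R, g i x) = 1)).card := by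
    simp only [Finset.card_filter]
    rw [Finset.sum_comm]
    refine Finset.sum_congr rfl fun x hx => Finset.sum_congr rfl fun R _ => ?_
    have h : (x ∈ X ∩ {x | (∑ i ∈ R, g i x) = 1}) ↔ (∑ i ∈ R, g i x) = 1 :=
      ⟨fun h => h.2, fun h => ⟨hBX x hx, h⟩⟩
    by_cases h' : (∑ i ∈ R, g i x) = 1
    · rw [if_pos h', if_pos (h.2 h')]
    · rw [if_neg h', if_neg (fun h'' => h' (h.1 h''))]
  have h3 : 2 * ∑ x ∈ B, (Finset.univ.filter (fun R : Finset (Fin l) => (∑ i ∈ R, g i x) = 1)).card =
      ∑ x ∈ B, (Finset.univ : Finset (Finset (Fin l))).card := by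
    rw [Finset.mul_sum]
    refine Finset.sum_congr rfl fun x hx => ?_
    obtain ⟨i, hi⟩ := hX x (hBX x hx)
    exact Half_toggle (fun j => g j x) i hi
  rw [Finset.sum_const, smul_eq_mul, hBc, mul_comm (rk V D X)] at h3
  omega

theorem Om_half (h0 : 0 ≤ q) (h1 : q < 1) {l : ℕ} (g : Fin l → V → ZMod 2) (X : Set V)
    (hX : ∀ x ∈ X, ∃ i, g i x = 1) :
    ∃ R : Finset (Fin l), Om V q X / 2 ≤ Om V q (X ∩ {x | (∑ i ∈ R, g i x) = 1}) := by
  have key : ∑ R : Finset (Fin l), Om V q X / 2 ≤
      ∑ R : Finset (Fin l), Om V q (X ∩ {x | (∑ i ∈ R, g i x) = 1}) := by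
    unfold Om
    rw [← Finset.mul_sum, ← Summable.tsum_finsetSum (fun R _ => om_summable h0 h1 _), Finset.sum_const,
      nsmul_eq_mul]
    have k1 : ∑' D : ℕ, ((Finset.univ : Finset (Finset (Fin l))).card : ℝ) / 2 * (q ^ D * (rk V D X : ℝ)) ≤
        ∑' D : ℕ, ∑ R : Finset (Fin l), q ^ D * (rk V D (X ∩ {x | (∑ i ∈ R, g i x) = 1}) : ℝ) := by
      refine Summable.tsum_le_tsum (fun D => ?_) ((om_summable h0 h1 X).mul_left _)
        (summable_sum fun R _ => om_summable h0 h1 _)
      rw [← Finset.mul_sum]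
      have h := Half_sum g X hX D
      have h' : ((Finset.univ : Finset (Finset (Fin l))).card : ℝ) * rk V D X ≤
          2 * ∑ R : Finset (Fin l), (rk V D (X ∩ {x | (∑ i ∈ R, g i x) = 1}) : ℝ) := by
        exact_mod_cast h
      have h2 : ((Finset.univ : Finset (Finset (Fin l))).card : ℝ) / 2 * (q ^ D * (rk V D X : ℝ)) =
          q ^ D * (((Finset.univ : Finset (Finset (Fin l))).card : ℝ) * rk V D X / 2) := by ring
      rw [h2]
      exact mul_le_mul_of_nonneg_left (by linarith) (pow_nonneg h0 D)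
    rw [tsum_mul_left] at k1
    have h3 : (0 : ℝ) ≤ 1 - q := by linarith
    have h4 := mul_le_mul_of_nonneg_left k1 h3
    linarith
  obtain ⟨R, _, hR⟩ := Finset.exists_le_of_sum_le Finset.univ_nonempty key
  exact ⟨R, hR⟩

end H96RX
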