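import Pool.Agent.H96.RX.Omega
import Pool.Agent.H96.RX.OmUniv

/-!
ROW Split (cutting a set by a polynomial; about 110 lines).  PROOF.
`rk_split`.  `R = RM V (D + e)`, `X0 = X ∩ {p = 0}`, `X1 = X ∩ {p = 1}`.  By `rk_add` it is enough that
`finrank (R ⊓ van X) + rk V D X1 ≤ finrank (R ⊓ van X0)`.  The linear map `μ : RM V D → R ⊓ van X0`, `h ↦ h * p` (`h * p ∈ RM V (D + e)`: `pow_add`,
`Submodule.mul_mem_mul`; it vanishes where `p = 0`).  `h * p ∈ van X` iff `h` vanishes on `X1` (values of `p` are `0` or `1`).  Let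
`Q = (RM V D).map (· * p)` (submodule of `R ⊓ van X0`), `K = R ⊓ van X`.  `finrank Q + finrank K = finrank (Q ⊔ K) + finrank (Q ⊓ K)`
(`Submodule.finrank_sup_add_finrank_inf_eq`), `Q ⊔ K ≤ R ⊓ van X0`.  So it is enough that `finrank Q - finrank (Q ⊓ K) ≥ rk V D X1`: consider the
submodule `P = (RM V D) ⊓ van X1` : `rank_map` for `L = (· * p)` on `RM V D` and on `P` : `P.map L = Q ⊓ K`, and both have the same kernel part
`RM V D ⊓ ker L` (if `h p = 0` then `h` vanishes on `X1`).  So `finrank Q - finrank (Q ⊓ K) = finrank (RM V D) - finrank P = rk V D X1`.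
`rk_mono_deg`: `RM V D ≤ RM V (D+1)` (`RM_succ_le`): restrict: `rk V D X = finrank` of the image of `RM V D` in the functions on `X`; use `rank_map` with the
restriction map `L = LinearMap.funLeft F F (Subtype.val : X → V)`, whose kernel is `van X`, and `Submodule.finrank_mono (Submodule.map_mono ..)`.
`Om_split`: `∑ q^D rk_D(X) = ∑_(D<e) + ∑_D q^(D+e) rk_(D+e)(X)` (`Summable.sum_add_tsum_nat_add`), `rk_D(X) ≥ rk_D(X0)` for `D < e` (`rk_mono`), and `rk_split`;
`∑_D q^(D+e) rk_D(X1) = q^e ∑ q^D rk_D(X1)`.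
`pow_mul_rk_le`: `(1-q) ∑_(D' ≥ D) q^D' rk_D'(X) ≥ (1-q) ∑_(D' ≥ D) q^D' rk_D(X) = q^D rk_D(X)`.
`Om_le`: `Om_mono`, `Om_univ`.
-/

set_option autoImplicit false
open scoped Classical

namespace H96RX

variable {V : Type} [AddCommGroup V] [Module (ZMod 2) V] [Finite V] {q : ℝ}

omit [Finite V] in
private theorem Split_zmod (a : ZMod 2) : a = 0 ∨ a = 1 := by
  revert a
  decide

omit [Finite V] in
private theorem Split_RM_mono {D D' : ℕ} (h : D ≤ D') : RM V D ≤ RM V D' := by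
  obtain ⟨k, rfl⟩ := Nat.exists_eq_add_of_le h
  induction k with
  | zero => exact le_rfl
  | succ k ih => exact (ih (Nat.le_add_right _ _)).trans (RM_succ_le _)

private theorem Split_rk_map (D : ℕ) (X : Set V) :
    rk V D X = Module.finrank (ZMod 2)
      ↥((RM V D).map (LinearMap.funLeft (ZMod 2) (ZMod 2) (Subtype.val : X → V))) := by
  have h1 := rk_add (V := V) D X
  have h2 := rank_map (LinearMap.funLeft (ZMod 2) (ZMod 2) (Subtype.val : X → V)) (RM V D)
  have h3 : RM V D ⊓ LinearMap.ker (LinearMap.funLeft (ZMod 2) (ZMod 2) (Subtype.val : X → V)) =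
      RM V D ⊓ van X := by
    ext f
    rw [Submodule.mem_inf, Submodule.mem_inf, LinearMap.mem_ker]
    constructor
    · rintro ⟨hf, hk⟩
      exact ⟨hf, fun x hx => congrFun hk ⟨x, hx⟩⟩
    · rintro ⟨hf, hk⟩
      exact ⟨hf, funext fun x => hk x.1 x.2⟩
  rw [h3] at h2
  omega

private theorem Split_shift (h0 : 0 ≤ q) (h1 : q < 1) (e : ℕ) (X : Set V) :
    ∑' D : ℕ, q ^ D * (rk V D X : ℝ) = ∑ D ∈ Finset.range e, q ^ D * (rk V D X : ℝ) +
      ∑' D : ℕ, q ^ (D + e) * (rk V (D + e) X : ℝ) :=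
  ((om_summable h0 h1 X).sum_add_tsum_nat_add e).symm

private theorem Split_sum' (h0 : 0 ≤ q) (h1 : q < 1) (e : ℕ) (X : Set V) :
    Summable (fun D : ℕ => q ^ (D + e) * (rk V (D + e) X : ℝ)) :=
  (summable_nat_add_iff e).2 (om_summable h0 h1 X)

theorem rk_split {e : ℕ} (D : ℕ) {p : V → ZMod 2} (hp : p ∈ RM V e) (X : Set V) :
    rk V (D + e) (X ∩ {x | p x = 0}) + rk V D (X ∩ {x | p x = 1}) ≤ rk V (D + e) X := by
  obtain ⟨L, hL⟩ : ∃ L : (V → ZMod 2) →ₗ[ZMod 2] (V → ZMod 2), ∀ h x, L h x = h x * p x :=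
    ⟨LinearMap.mulRight (ZMod 2) p, fun h x => rfl⟩
  have r1 := rank_map L (RM V D)
  have r2 := rank_map L (RM V D ⊓ van (X ∩ {x | p x = 1}))
  have hk : (RM V D ⊓ van (X ∩ {x | p x = 1})) ⊓ LinearMap.ker L = RM V D ⊓ LinearMap.ker L := by
    ext f
    simp only [Submodule.mem_inf, LinearMap.mem_ker]
    constructor
    · rintro ⟨⟨a, _⟩, c⟩
      exact ⟨a, c⟩
    · rintro ⟨a, c⟩
      refine ⟨⟨a, ?_⟩, c⟩
      rintro x ⟨_, hx⟩
      have h1 := congrFun c x
      have hx' : p x = 1 := hx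
      rw [hL, hx', mul_one] at h1
      exact h1
  rw [hk] at r2
  have hi : (RM V D ⊓ van (X ∩ {x | p x = 1})).map L =
      (RM V D).map L ⊓ (RM V (D + e) ⊓ van X) := by
    ext g
    constructor
    · rintro ⟨f, ⟨hf, hv⟩, rfl⟩
      refine ⟨⟨f, hf, rfl⟩, ?_, ?_⟩
      · have h1 : L f = f * p := funext fun x => hL f x
        rw [h1]
        unfold RM at hf hp ⊢
        rw [pow_add]
        exact Submodule.mul_mem_mul hf hp
      · intro x hx
        rw [hL]
        rcases Split_zmod (p x) with h2 | h2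
        · rw [h2, mul_zero]
        · rw [hv x ⟨hx, h2⟩, zero_mul]
    · rintro ⟨⟨f, hf, rfl⟩, _, hv⟩
      refine ⟨f, ⟨hf, ?_⟩, rfl⟩
      rintro x ⟨hx, hx1⟩
      have h1 := hv x hx
      have hx' : p x = 1 := hx1
      rw [hL, hx', mul_one] at h1
      exact h1
  rw [hi] at r2
  have hs : (RM V D).map L ⊔ (RM V (D + e) ⊓ van X) ≤ RM V (D + e) ⊓ van (X ∩ {x | p x = 0}) := by
    refine sup_le ?_ ?_
    · rintro g ⟨f, hf, rfl⟩
      refine ⟨?_, ?_⟩
      · have h1 : L f = f * p := funext fun x => hL f x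
        rw [h1]
        have hf' : f ∈ RM V D := hf
        unfold RM at hf' hp ⊢
        rw [pow_add]
        exact Submodule.mul_mem_mul hf' hp
      · rintro x ⟨_, hx⟩
        have hx' : p x = 0 := hx
        rw [hL, hx', mul_zero]
    · rintro g ⟨hg, hv⟩
      exact ⟨hg, fun x hx => hv x hx.1⟩
  have r3 := Submodule.finrank_sup_add_finrank_inf_eq ((RM V D).map L) (RM V (D + e) ⊓ van X)
  have r4 := Submodule.finrank_mono hs
  have r5 := rk_add (V := V) (D + e) X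
  have r6 := rk_add (V := V) (D + e) (X ∩ {x | p x = 0})
  have r7 := rk_add (V := V) D (X ∩ {x | p x = 1})
  omega

theorem rk_mono_deg {D D' : ℕ} (h : D ≤ D') (X : Set V) : rk V D X ≤ rk V D' X := by
  rw [Split_rk_map, Split_rk_map]
  exact Submodule.finrank_mono (Submodule.map_mono (Split_RM_mono h))

theorem Om_split (h0 : 0 ≤ q) (h1 : q < 1) {e : ℕ} {p : V → ZMod 2} (hp : p ∈ RM V e) (X : Set V) :
    Om V q (X ∩ {x | p x = 0}) + q ^ e * Om V q (X ∩ {x | p x = 1}) ≤ Om V q X := by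
  unfold Om
  rw [Split_shift h0 h1 e X, Split_shift h0 h1 e (X ∩ {x | p x = 0})]
  have k1 : ∑ D ∈ Finset.range e, q ^ D * (rk V D (X ∩ {x | p x = 0}) : ℝ) ≤
      ∑ D ∈ Finset.range e, q ^ D * (rk V D X : ℝ) := by
    refine Finset.sum_le_sum fun D _ => ?_
    have h : (rk V D (X ∩ {x | p x = 0}) : ℝ) ≤ rk V D X := by
      exact_mod_cast rk_mono D Set.inter_subset_left
    exact mul_le_mul_of_nonneg_left h (pow_nonneg h0 D)
  have s1 := Split_sum' h0 h1 e X
  have s2 := Split_sum' h0 h1 e (X ∩ {x | p x = 0})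
  have s3 := (om_summable h0 h1 (X ∩ {x | p x = 1})).mul_left (q ^ e)
  have k2 : ∑' D : ℕ, q ^ (D + e) * (rk V (D + e) (X ∩ {x | p x = 0}) : ℝ) +
      ∑' D : ℕ, q ^ e * (q ^ D * (rk V D (X ∩ {x | p x = 1}) : ℝ)) ≤
      ∑' D : ℕ, q ^ (D + e) * (rk V (D + e) X : ℝ) := by
    rw [← s2.tsum_add s3]
    refine Summable.tsum_le_tsum (fun D => ?_) (s2.add s3) s1
    have h : (rk V (D + e) (X ∩ {x | p x = 0}) : ℝ) + rk V D (X ∩ {x | p x = 1}) ≤
        rk V (D + e) X := by exact_mod_cast rk_split D hp X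
    have h2 : q ^ (D + e) * (rk V (D + e) (X ∩ {x | p x = 0}) : ℝ) +
        q ^ e * (q ^ D * (rk V D (X ∩ {x | p x = 1}) : ℝ)) =
        q ^ (D + e) * ((rk V (D + e) (X ∩ {x | p x = 0}) : ℝ) + rk V D (X ∩ {x | p x = 1})) := by
      rw [pow_add]
      ring
    rw [h2]
    exact mul_le_mul_of_nonneg_left h (pow_nonneg h0 _)
  rw [tsum_mul_left] at k2
  have h3 : (0 : ℝ) ≤ 1 - q := by linarith
  have h4 := mul_le_mul_of_nonneg_left (add_le_add k1 k2) h3
  linarith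

theorem pow_mul_rk_le (h0 : 0 ≤ q) (h1 : q < 1) (D : ℕ) (X : Set V) : q ^ D * (rk V D X : ℝ) ≤ Om V q X := by
  unfold Om
  rw [Split_shift h0 h1 D X]
  have k1 : 0 ≤ ∑ D' ∈ Finset.range D, q ^ D' * (rk V D' X : ℝ) :=
    Finset.sum_nonneg fun D' _ => mul_nonneg (pow_nonneg h0 _) (Nat.cast_nonneg _)
  have s1 := Split_sum' h0 h1 D X
  have s2 : Summable (fun D' : ℕ => q ^ D' * (q ^ D * (rk V D X : ℝ))) :=
    (summable_geometric_of_lt_one h0 h1).mul_right _
  have k2 : ∑' D' : ℕ, q ^ D' * (q ^ D * (rk V D X : ℝ)) ≤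
      ∑' D' : ℕ, q ^ (D' + D) * (rk V (D' + D) X : ℝ) := by
    refine Summable.tsum_le_tsum (fun D' => ?_) s2 s1
    have h : (rk V D X : ℝ) ≤ rk V (D' + D) X := by
      exact_mod_cast rk_mono_deg (Nat.le_add_left D D') X
    rw [← mul_assoc, ← pow_add]
    exact mul_le_mul_of_nonneg_left h (pow_nonneg h0 _)
  rw [tsum_mul_right, tsum_geometric_of_lt_one h0 h1] at k2
  have h3 : (0 : ℝ) < 1 - q := by linarith
  have h4 : (1 - q) * ((1 - q)⁻¹ * (q ^ D * (rk V D X : ℝ))) = q ^ D * (rk V D X : ℝ) := by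
    rw [← mul_assoc, mul_inv_cancel₀ h3.ne', one_mul]
  rw [← h4]
  exact mul_le_mul_of_nonneg_left (by linarith) h3.le

end H96RX
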