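import Pool.Agent.H96.RE.Defs
import Pool.Agent.H91.RE.Nf
import Pool.Agent.H96.RE.PCmul

/-!
Theorem B (Alekhnovich-Razborov operator).  See /team-store/H33_RX2.md, Theorem B (1)-(4).  Proof: helper91.
-/

set_option autoImplicit false
open scoped Classical

namespace H96RE

open H91RE

theorem mulX_eq {n : ℕ} (i : Fin n) (g : (Fin n → ZMod 2) → ZMod 2) :
    mulX i g = LinearMap.mulLeft (ZMod 2) (mono {i}) g := by
  funext x
  show x i * g x = (mono {i} * g) x
  rw [Pi.mul_apply]
  unfold mono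
  rw [Finset.prod_singleton]

theorem mulL_mono {n : ℕ} (i : Fin n) (T : Finset (Fin n)) :
    LinearMap.mulLeft (ZMod 2) (mono {i}) (mono T) = mono (insert i T) := by
  rw [LinearMap.mulLeft_apply, mono_mul, Finset.insert_eq]

theorem VJ_mono {n : ℕ} {ι : Type} (S : ι → Finset (Fin n)) (σ : ι → Fin n → ZMod 2) {J J' : Finset ι} (h : J ⊆ J') :
    VJ S σ J ≤ VJ S σ J' :=
  fun _ hg x hx => hg x fun j hj => hx j (h hj)

theorem VJ_mul {n : ℕ} {ι : Type} (S : ι → Finset (Fin n)) (σ : ι → Fin n → ZMod 2) (J : Finset ι)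
    (i : Fin n) (g : (Fin n → ZMod 2) → ZMod 2) (hg : g ∈ VJ S σ J) :
    LinearMap.mulLeft (ZMod 2) (mono {i}) g ∈ VJ S σ J := by
  intro x hx
  rw [LinearMap.mulLeft_apply, Pi.mul_apply, hg x hx, mul_zero]

theorem VJ_empty {n : ℕ} {ι : Type} (S : ι → Finset (Fin n)) (σ : ι → Fin n → ZMod 2)
    (g : (Fin n → ZMod 2) → ZMod 2) (hg : g ∈ VJ S σ (∅ : Finset ι)) : g = 0 := by
  funext x
  exact hg x fun j hj => absurd hj (Finset.notMem_empty j)

theorem mul_span {n : ℕ} (i : Fin n) (T : Finset (Fin n)) (g : (Fin n → ZMod 2) → ZMod 2)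
    (hg : g ∈ Submodule.span (ZMod 2) (mono '' {T' : Finset (Fin n) | T' ⊆ T})) :
    LinearMap.mulLeft (ZMod 2) (mono {i}) g ∈
      Submodule.span (ZMod 2) (mono '' {T' : Finset (Fin n) | T' ⊆ insert i T}) := by
  have hle : Submodule.span (ZMod 2) (mono '' {T' : Finset (Fin n) | T' ⊆ T}) ≤
      Submodule.comap (LinearMap.mulLeft (ZMod 2) (mono {i}))
        (Submodule.span (ZMod 2) (mono '' {T' : Finset (Fin n) | T' ⊆ insert i T})) := by
    rw [Submodule.span_le]
    rintro _ ⟨T', hT', rfl⟩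
    show LinearMap.mulLeft (ZMod 2) (mono {i}) (mono T') ∈
      Submodule.span (ZMod 2) (mono '' {T' : Finset (Fin n) | T' ⊆ insert i T})
    rw [mulL_mono]
    exact Submodule.subset_span ⟨_, Finset.insert_subset_insert i hT', rfl⟩
  exact hle hg

theorem ind_span {n : ℕ} (T : Finset (Fin n)) (τ : Fin n → ZMod 2) :
    indic (falseSet T τ) ∈ Submodule.span (ZMod 2) (mono '' {T' : Finset (Fin n) | T' ⊆ T}) := by
  induction T using Finset.induction_on with
  | empty =>
    have h1 : indic (falseSet (∅ : Finset (Fin n)) τ) = mono ∅ := by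
      funext x
      simp [indic, falseSet, mono]
    rw [h1]
    exact Submodule.subset_span ⟨∅, Finset.Subset.refl _, rfl⟩
  | insert i T hi ih =>
    have hz : ∀ a b : ZMod 2, a ≠ b → a + b + 1 = 0 := by decide
    have ho : ∀ b : ZMod 2, b + b + 1 = 1 := by decide
    have h1 : indic (falseSet (insert i T) τ) =
        LinearMap.mulLeft (ZMod 2) (mono {i}) (indic (falseSet T τ)) + (τ i + 1) • indic (falseSet T τ) := by
      funext x
      rw [Pi.add_apply, LinearMap.mulLeft_apply, Pi.mul_apply, Pi.smul_apply, smul_eq_mul, ← add_mul]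
      have h2 : mono ({i} : Finset (Fin n)) x = x i := by
        unfold mono
        rw [Finset.prod_singleton]
      rw [h2]
      simp only [indic, falseSet, Set.mem_setOf_eq, Finset.forall_mem_insert]
      by_cases h1 : x i = τ i
      · rw [h1, ← add_assoc, ho, one_mul]
        simp
      · rw [← add_assoc, hz _ _ h1, zero_mul, if_neg (fun h => h1 h.1)]
    rw [h1]
    refine Submodule.add_mem _ (mul_span i T _ ih) (Submodule.smul_mem _ _ (Submodule.span_mono ?_ ih))
    rintro _ ⟨T', hT', rfl⟩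
    exact ⟨T', Finset.Subset.trans hT' (Finset.subset_insert i T), rfl⟩

theorem thmB {n : ℕ} {ι : Type} [Fintype ι] (S : ι → Finset (Fin n)) (σ : ι → Fin n → ZMod 2) {E B p q : ℕ}
    (hp : 1 ≤ p) (hB : 1 ≤ B) (hE : 2 * q * E ≤ p * B) (hS : ∀ j, (S j).card ≤ E)
    (hbd : ∀ J : Finset ι, J.card ≤ B → p * J.card ≤ q * (bd S J).card) :
    Disjoint (Submodule.span (ZMod 2) (mono '' {T : Finset (Fin n) | T.card ≤ E ∧ T ∈ Good S B})) (PC S σ E) := by
  have hX : Exq S B p q := hbd
  have hTE : ∀ T : Finset (Fin n), T.card ≤ E → 2 * q * T.card ≤ p * B :=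
    fun T hT => (Nat.mul_le_mul_left _ hT).trans hE
  obtain ⟨o, ho⟩ := ord_exists n
  choose P hP0 hPirr hPsub hPmono using fun J : Finset ι => proj o ho.1 (VJ S σ J)
  -- the reduced monomial
  have hPv : ∀ (J : Finset ι) (T : Finset (Fin n)), P J (mono T) ∈
      Submodule.span (ZMod 2) (mono '' {T' | ¬ Red o (VJ S σ J) T' ∧ o T' ≤ o T ∧ T' ⊆ T ∪ J.biUnion S}) :=
    fun J T => proj_vars o ho.1 S σ J T _ (hPmono J T) (hPsub J (mono T))
  have hcard : ∀ T T' : Finset (Fin n), o T' ≤ o T → T'.card ≤ T.card := by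
    intro T T' h
    by_contra hc
    have := ho.2 T' T (by omega)
    omega
  -- independence of the set of clauses
  have h1 : ∀ (T : Finset (Fin n)) (J : Finset ι), T.card ≤ E → Spt S B T ⊆ J → J.card ≤ B →
      P J (mono T) = P (Spt S B T) (mono T) := by
    intro T J hT hTJ hJ
    set c := Spt S B T with hc
    have h2 : P J (mono T - P c (mono T)) = 0 := hP0 J _ (VJ_mono S σ hTJ (hPsub c (mono T)))
    rw [map_sub, sub_eq_zero] at h2
    rw [h2]
    have h3 : Set.EqOn (P J) (LinearMap.id (R := ZMod 2) (M := (Fin n → ZMod 2) → ZMod 2))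
        (mono '' {T' | ¬ Red o (VJ S σ c) T' ∧ o T' ≤ o T ∧ T' ⊆ T ∪ c.biUnion S}) := by
      rintro _ ⟨T', ⟨hirr, hoT, hsub⟩, rfl⟩
      have hT' : T'.card ≤ E := (hcard T T' hoT).trans hT
      have hs : Spt S B T' ⊆ c := spt_sub hp hX (hTE T hT) (hTE T' hT') hsub
      show P J (mono T') = mono T'
      refine hPirr J T' fun hred => hirr ?_
      have h4 := red_spt o ho S σ hp hX T' (hTE T' hT') J hJ (hs.trans hTJ) hred
      exact (sup_le_sup_right (VJ_mono S σ hs) _) h4
    exact LinearMap.eqOn_span h3 (hPv c T)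
  -- the operator
  let b := Module.Basis.mk (mono_indep n) (mono_top n).ge
  let R : ((Fin n → ZMod 2) → ZMod 2) →ₗ[ZMod 2] ((Fin n → ZMod 2) → ZMod 2) :=
    b.constr (ZMod 2) (fun T => if T.card ≤ E then P (Spt S B T) (mono T) else 0)
  have hR : ∀ T : Finset (Fin n), T.card ≤ E → R (mono T) = P (Spt S B T) (mono T) := by
    intro T hT
    have hb : b T = mono T := Module.Basis.mk_apply (mono_indep n) (mono_top n).ge T
    have h2 : R (b T) = if T.card ≤ E then P (Spt S B T) (mono T) else 0 := b.constr_basis (ZMod 2) _ T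
    rw [← hb, h2, if_pos hT, hb]
  -- multiplication
  have hmul : ∀ (i : Fin n) (e : ℕ), e + 1 ≤ E → ∀ g ∈ Pol n e,
      R (LinearMap.mulLeft (ZMod 2) (mono {i}) g) = R (LinearMap.mulLeft (ZMod 2) (mono {i}) (R g)) := by
    intro i e he g hg
    have h2 : Set.EqOn (R ∘ₗ LinearMap.mulLeft (ZMod 2) (mono {i}))
        (R ∘ₗ LinearMap.mulLeft (ZMod 2) (mono {i}) ∘ₗ R) (mono '' {T : Finset (Fin n) | T.card ≤ e}) := by
      rintro _ ⟨T, hT, rfl⟩
      have hT1 : T.card ≤ e := hT
      have hTi : (insert i T).card ≤ E := (Finset.card_insert_le i T).trans (by omega)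
      have hTE' : T.card ≤ E := by omega
      set J := Spt S B (insert i T) with hJ
      have hJB : J.card ≤ B := spt_card hp hX (hTE _ hTi)
      have hcT : Spt S B T ⊆ J :=
        spt_sub hp hX (hTE _ hTi) (hTE _ hTE') ((Finset.subset_insert i T).trans Finset.subset_union_left)
      show R (LinearMap.mulLeft (ZMod 2) (mono {i}) (mono T)) =
        R (LinearMap.mulLeft (ZMod 2) (mono {i}) (R (mono T)))
      have h3 : R (LinearMap.mulLeft (ZMod 2) (mono {i}) (mono T)) =
          P J (LinearMap.mulLeft (ZMod 2) (mono {i}) (mono T)) := by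
        rw [mulL_mono, hR _ hTi]
      have h4 : P J (LinearMap.mulLeft (ZMod 2) (mono {i}) (mono T)) =
          P J (LinearMap.mulLeft (ZMod 2) (mono {i}) (R (mono T))) := by
        rw [← sub_eq_zero, ← map_sub, ← map_sub, hR T hTE']
        exact hP0 J _ (VJ_mul S σ J i _ (VJ_mono S σ hcT (hPsub _ (mono T))))
      have h5 : Set.EqOn (P J ∘ₗ LinearMap.mulLeft (ZMod 2) (mono {i})) (R ∘ₗ LinearMap.mulLeft (ZMod 2) (mono {i}))
          (mono '' {T' | ¬ Red o (VJ S σ (Spt S B T)) T' ∧ o T' ≤ o T ∧ T' ⊆ T ∪ (Spt S B T).biUnion S}) := by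
        rintro _ ⟨T', ⟨hirr, hoT, hsub⟩, rfl⟩
        have hT' : T'.card ≤ e := (hcard T T' hoT).trans hT1
        have hT'i : (insert i T').card ≤ E := (Finset.card_insert_le i T').trans (by omega)
        have hs : Spt S B (insert i T') ⊆ J := by
          refine spt_sub hp hX (hTE _ hTi) (hTE _ hT'i) ?_
          intro v hv
          rcases Finset.mem_insert.mp hv with rfl | hv
          · exact Finset.mem_union_left _ (Finset.mem_insert_self _ _)
          · rcases Finset.mem_union.mp (hsub hv) with h6 | h6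
            · exact Finset.mem_union_left _ (Finset.mem_insert_of_mem h6)
            · exact Finset.mem_union_right _ (Finset.biUnion_subset_biUnion_of_subset_left S hcT h6)
        show P J (LinearMap.mulLeft (ZMod 2) (mono {i}) (mono T')) =
          R (LinearMap.mulLeft (ZMod 2) (mono {i}) (mono T'))
        rw [mulL_mono, hR _ hT'i, h1 _ J hT'i hs hJB]
      have h6 := LinearMap.eqOn_span h5 (hPv (Spt S B T) T)
      rw [← hR T hTE'] at h6
      rw [h3, h4]
      exact h6
    exact LinearMap.eqOn_span h2 hg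
  -- the clauses
  have hax : ∀ j, R (indic (falseSet (S j) (σ j))) = 0 := by
    intro j
    set J := Spt S B (S j) with hJ
    have hJB : J.card ≤ B := spt_card hp hX (hTE _ (hS j))
    have hjJ : j ∈ J := by
      have : ({j} : Finset ι) ⊆ J := spt_max (by rw [Finset.card_singleton]; exact hB) (by rw [bd_singleton])
      exact this (Finset.mem_singleton_self j)
    have h5 : Set.EqOn R (P J) (mono '' {T' : Finset (Fin n) | T' ⊆ S j}) := by
      rintro _ ⟨T', hT', rfl⟩
      have hsub : T' ⊆ S j := hT'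
      have hT'E : T'.card ≤ E := (Finset.card_le_card hsub).trans (hS j)
      rw [hR _ hT'E, h1 _ J hT'E (spt_sub hp hX (hTE _ (hS j)) (hTE _ hT'E)
        (hsub.trans Finset.subset_union_left)) hJB]
    rw [LinearMap.eqOn_span h5 (ind_span (S j) (σ j))]
    refine hP0 J _ fun x hx => ?_
    show (if x ∈ falseSet (S j) (σ j) then (1 : ZMod 2) else 0) = 0
    exact if_neg (hx j hjJ)
  -- `PC` is contained in the kernel
  have hPC : PC S σ E ≤ Pol n E ⊓ LinearMap.ker R := by
    refine sInf_le ⟨fun j => ?_, ?_⟩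
    · exact Submodule.mem_inf.mpr ⟨Pol_mono (hS j) (ind_mem_Pol (S j) (σ j)), LinearMap.mem_ker.mpr (hax j)⟩
    · intro g hg e he hge i
      have hgR : R g = 0 := LinearMap.mem_ker.mp (Submodule.mem_inf.mp hg).2
      refine Submodule.mem_inf.mpr ⟨Pol_mono he (mulX_mem i hge), LinearMap.mem_ker.mpr ?_⟩
      rw [mulX_eq, hmul i e he g hge, hgR, map_zero, map_zero]
  -- the good monomials are fixed
  rw [Submodule.disjoint_def]
  intro f hf hfPC
  have h6 : Set.EqOn R (LinearMap.id (R := ZMod 2) (M := (Fin n → ZMod 2) → ZMod 2))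
      (mono '' {T : Finset (Fin n) | T.card ≤ E ∧ T ∈ Good S B}) := by
    rintro _ ⟨T, ⟨hT, hG⟩, rfl⟩
    show R (mono T) = mono T
    rw [hR T hT, spt_good hG]
    have := VJ_empty S σ _ (hPsub ∅ (mono T))
    rw [sub_eq_zero] at this
    exact this.symm
  have h7 := LinearMap.eqOn_span h6 hf
  have h8 : R f = 0 := LinearMap.mem_ker.mp (hPC hfPC).2
  rw [h8] at h7
  exact h7.symm

end H96RE
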